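import Mathlib
import Pool.Agent.Helper49.CapacityCriterionProof

set_option autoImplicit false

namespace Pool.Agent.Results.MP_f1c2ec_an.CapacityCriterionFails

open scoped ENNReal
open MeasureTheory Pool.Agent.Helper49.Cyc

/-- The polynomial `2 - (z_0 + z_1) z_2 z_3 ⋯ z_{n+1}` in `n + 2` variables. -/
noncomputable def capPoly (n : ℕ) : MvPolynomial (Fin (n + 2)) ℂ :=
  MvPolynomial.C 2 -
    (MvPolynomial.X 0 + MvPolynomial.X 1) * ∏ j : Fin n, MvPolynomial.X j.succ.succ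

/-- The zero set of `P` on the torus `𝕋^d`. -/
def torusZeros {d : ℕ} (P : MvPolynomial (Fin d) ℂ) : Set (Fin d → ℂ) :=
  {z | (∀ j, ‖z j‖ = 1) ∧ MvPolynomial.eval z P = 0}

/-- The Fourier coefficient `∫ z^{-k} dμ`, `k ∈ ℤ^d`, of a measure carried by the torus. -/
noncomputable def fourierCoeff {d : ℕ} (μ : Measure (Fin d → ℂ)) (k : Fin d → ℤ) : ℂ :=
  ∫ z, ∏ j, (z j) ^ (-(k j)) ∂μ

/-- The `t`-energy `∑_{k ∈ ℤ^d} |μ̂(k)|² ∏_j (1 + |k_j|)^{-t}` of a measure carried by the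
torus. -/
noncomputable def energy {d : ℕ} (t : ℝ) (μ : Measure (Fin d → ℂ)) : ℝ≥0∞ :=
  ∑' k : Fin d → ℤ,
    ENNReal.ofReal (‖fourierCoeff μ k‖ ^ 2 * ∏ j, (1 + |(k j : ℝ)|) ^ (-t))

/-- **Rational thresholds and failure of the zero-capacity criterion.**
(1) For all `1 ≤ r ≤ s ≤ d` there is a polynomial in `d` variables, without zeros in the open
polydisk, which is shift-cyclic in `𝓓_t(𝔻^d)` exactly for `t ≤ r / s`.
(2) For every `n` the polynomial `2 - (z_0 + z_1) z_2 ⋯ z_{n+1}` in `d = n + 2` variables has no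
zeros in the open polydisk and is shift-cyclic in `𝓓_t(𝔻^d)` exactly for `t ≤ 2 / (n + 2)`,
although for all `t ≤ 1 / 2` every nonzero finite Borel measure on the torus carried by its zero
set has infinite `t`-energy. -/
theorem result :
    (∀ d r s : ℕ, 1 ≤ r → r ≤ s → s ≤ d → ∃ P : MvPolynomial (Fin d) ℂ,
      (∀ z : Fin d → ℂ, (∀ j, ‖z j‖ < 1) → MvPolynomial.eval z P ≠ 0) ∧
      ∀ t : ℝ, ShiftCyclic t P ↔ t ≤ (r : ℝ) / s) ∧
    (∀ n : ℕ,
      (∀ z : Fin (n + 2) → ℂ, (∀ j, ‖z j‖ < 1) → MvPolynomial.eval z (capPoly n) ≠ 0) ∧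
      (∀ t : ℝ, ShiftCyclic t (capPoly n) ↔ t ≤ 2 / ((n : ℝ) + 2)) ∧
      (∀ t : ℝ, t ≤ 1 / 2 → ∀ μ : Measure (Fin (n + 2) → ℂ), IsFiniteMeasure μ → μ ≠ 0 →
        μ (torusZeros (capPoly n))ᶜ = 0 → energy t μ = ⊤)) :=
  Helper49.CapF.main

end Pool.Agent.Results.MP_f1c2ec_an.CapacityCriterionFails
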