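import Mathlib
import Pool.Agent.Helper49.FFinal

/-! The classification of the shift-cyclic polynomials in Dirichlet-type spaces on the polydisk. -/

set_option autoImplicit false

namespace Pool.Agent.Results.MP_f1c2ec_an.Classification

open Pool.Agent.Helper49.Cyc Pool.Agent.Helper49.FA

/-- Let `t ≤ 1`. A polynomial `P` in `d` variables is shift-cyclic in `𝓓_t(𝔻^d)` if and only if it has
no zeros in `𝔻^d` and every smooth patch of the zero set of `P` on the torus `𝕋^d` has a point `u` with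
a nonzero conormal vector `n` with nonnegative coordinates such that the conormal vectors at `u`
supported in the support of `n` form a space of dimension at least `t` times the size of the support
of `n`. -/
theorem result (d : ℕ) (t : ℝ) (ht : t ≤ 1) (P : MvPolynomial (Fin d) ℂ) :
    ShiftCyclic t P ↔
      (∀ z : Fin d → ℂ, (∀ j, ‖z j‖ < 1) → MvPolynomial.eval z P ≠ 0) ∧
        ∀ (s : ℕ) (U : Set (Fin s → ℝ)) (ψ : (Fin s → ℝ) → (Fin d → ℝ)), Patch P s U ψ →
          ∃ u ∈ U, ∃ n ∈ conormal (fderiv ℝ ψ u), (∀ j, 0 ≤ n j) ∧ n ≠ 0 ∧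
            t * (Finset.univ.filter fun j => n j ≠ 0).card
              ≤ Module.finrank ℝ ↥(conormal (fderiv ℝ ψ u) ⊓ suppIn n) := by
  rw [classification ht P]
  constructor
  · rintro ⟨h1, h2⟩
    refine ⟨h1, fun s U ψ hP => ?_⟩
    obtain ⟨u, hu, hnot⟩ := h2 s U ψ hP
    unfold Thin at hnot
    push Not at hnot
    obtain ⟨n, hn, hn0, hne, hle⟩ := hnot
    exact ⟨u, hu, n, hn, hn0, hne, hle⟩
  · rintro ⟨h1, h2⟩
    refine ⟨h1, fun s U ψ hP => ?_⟩
    obtain ⟨u, hu, n, hn, hn0, hne, hle⟩ := h2 s U ψ hP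
    exact ⟨u, hu, fun hthin => absurd (hthin n hn hn0 hne) (not_lt.2 hle)⟩

end Pool.Agent.Results.MP_f1c2ec_an.Classification
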