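import Mathlib
import Pool.Agent.Helper49.CycMain

set_option autoImplicit false

namespace Pool.Agent.Results.MP_f1c2ec_an.DominantConstantTerm

open scoped ENNReal
open Pool.Agent.Helper49.Cyc

/-- Sanity check: a factor as in the theorem has no zeros in the open polydisk. -/
theorem no_zero_in_polydisk (d : ℕ) (P : MvPolynomial (Fin d) ℂ) (hP0 : P.coeff 0 ≠ 0)
    (hdom : ∑ α ∈ P.support.erase 0, ‖P.coeff α‖ ≤ ‖P.coeff 0‖)
    (z : Fin d → ℂ) (hz : ∀ j, ‖z j‖ < 1) : MvPolynomial.eval z P ≠ 0 := by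
  classical
  intro h
  have h0mem : (0 : Fin d →₀ ℕ) ∈ P.support := MvPolynomial.mem_support_iff.2 hP0
  rw [MvPolynomial.eval_eq', ← Finset.add_sum_erase _ _ h0mem] at h
  simp only [Finsupp.coe_zero, Pi.zero_apply, pow_zero, Finset.prod_const_one, mul_one] at h
  have h1 : ‖P.coeff 0‖ = ‖∑ α ∈ P.support.erase 0, P.coeff α * ∏ j, z j ^ α j‖ := by
    rw [← norm_neg]
    congr 1
    linear_combination -h
  have hprod : ∀ α : Fin d →₀ ℕ, ‖∏ j, z j ^ α j‖ ≤ 1 := by
    intro α
    rw [norm_prod]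
    apply Finset.prod_le_one
    · intro j _; exact norm_nonneg _
    · intro j _
      rw [norm_pow]
      exact pow_le_one₀ (norm_nonneg _) (hz j).le
  have hprod' : ∀ α : Fin d →₀ ℕ, α ≠ 0 → ‖∏ j, z j ^ α j‖ < 1 := by
    intro α hα
    obtain ⟨i, hi⟩ : ∃ i, α i ≠ 0 := by
      by_contra hcon
      push Not at hcon
      exact hα (by ext j; simpa using hcon j)
    rw [norm_prod, ← Finset.mul_prod_erase _ _ (Finset.mem_univ i)]
    have h2 : ‖z i ^ α i‖ < 1 := by
      rw [norm_pow]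
      exact pow_lt_one₀ (norm_nonneg _) (hz i) hi
    have h3 : ∏ x ∈ Finset.univ.erase i, ‖z x ^ α x‖ ≤ 1 := by
      apply Finset.prod_le_one
      · intro j _; exact norm_nonneg _
      · intro j _
        rw [norm_pow]
        exact pow_le_one₀ (norm_nonneg _) (hz j).le
    have h4 : 0 ≤ ∏ x ∈ Finset.univ.erase i, ‖z x ^ α x‖ :=
      Finset.prod_nonneg fun j _ => norm_nonneg _
    calc ‖z i ^ α i‖ * ∏ x ∈ Finset.univ.erase i, ‖z x ^ α x‖
        ≤ ‖z i ^ α i‖ * 1 := by gcongr
      _ < 1 := by linarith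
  rcases (P.support.erase 0).eq_empty_or_nonempty with he | he
  · rw [he, Finset.sum_empty, norm_zero] at h1
    exact hP0 (norm_eq_zero.1 h1)
  · have h2 : ‖∑ α ∈ P.support.erase 0, P.coeff α * ∏ j, z j ^ α j‖
        < ∑ α ∈ P.support.erase 0, ‖P.coeff α‖ := by
      refine lt_of_le_of_lt (norm_sum_le _ _) ?_
      apply Finset.sum_lt_sum_of_nonempty he
      intro α hα
      rw [norm_mul]
      have h3 := hprod' α (Finset.ne_of_mem_erase hα)
      have h4 : 0 < ‖P.coeff α‖ :=
        norm_pos_iff.2 (MvPolynomial.mem_support_iff.1 (Finset.mem_of_mem_erase hα))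
      nlinarith
    rw [← h1] at h2
    linarith

/-- **Shift-cyclicity of products of polynomials with dominant constant term.**
Let `P i` (`i` in a finite index type) be polynomials in `d` variables, each with
`∑_{α ≠ 0} |p_α| ≤ |p_0|` and with a zero on the torus `𝕋^d`. For every real `t`, the product
`∏ P i` is shift-cyclic in `𝓓_t(𝔻^d)` if and only if for every `i` the series
`∑_k w_t(k)⁻¹`, over the nonnegative points `k` of the subgroup of `ℤ^d` generated by the
exponents of `P i`, diverges. -/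
theorem result (d : ℕ) (t : ℝ) (ι : Type) [Fintype ι] (P : ι → MvPolynomial (Fin d) ℂ)
    (hdom : ∀ i, ∑ α ∈ (P i).support.erase 0, ‖(P i).coeff α‖ ≤ ‖(P i).coeff 0‖)
    (hzero : ∀ i, ∃ ζ : Fin d → ℂ, (∀ j, ‖ζ j‖ = 1) ∧ MvPolynomial.eval ζ (P i) = 0) :
    ShiftCyclic t (∏ i, P i) ↔
      ∀ i, ∑' k : expPoints (P i), ENNReal.ofReal ((weight t (k : Fin d →₀ ℕ))⁻¹) = ⊤ := by
  rw [shiftCyclic_prod]
  constructor
  · intro h i
    exact (shiftCyclic_iff_of_dominated t (P i) (hdom i) (hzero i)).1 (h i (Finset.mem_univ i))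
  · intro h i _
    exact (shiftCyclic_iff_of_dominated t (P i) (hdom i) (hzero i)).2 (h i)

end Pool.Agent.Results.MP_f1c2ec_an.DominantConstantTerm
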