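import Mathlib
import Pool.Agent.Helper49.CycSelf

/-! Shift-cyclicity of self-reflective polynomials. -/

set_option autoImplicit false

namespace Pool.Agent.Results.MP_f1c2ec_an.SelfReflective

open Pool.Agent.Helper49.Cyc

/-- A self-reflective polynomial `P` is shift-cyclic in `𝓓_t(𝔻^d)` if and only if it has no zeros
in `𝔻^d` and each irreducible factor of `P` involves `m` variables with `t m ≤ 1`. -/
theorem result (d : ℕ) (t : ℝ) (P : MvPolynomial (Fin d) ℂ) (hP : SelfReflective P) :
    ShiftCyclic t P ↔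
      (∀ z : Fin d → ℂ, (∀ j, ‖z j‖ < 1) → MvPolynomial.eval z P ≠ 0) ∧
        ∀ Q : MvPolynomial (Fin d) ℂ, Irreducible Q → Q ∣ P → t * Q.vars.card ≤ 1 :=
  Pool.Agent.Helper49.Toral.shiftCyclic_iff_of_selfReflective t P hP

end Pool.Agent.Results.MP_f1c2ec_an.SelfReflective
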